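import Pool.Agent.Helper61.NW.Goals2

/-!
# Packet LNC of project NW+

Line systems whose lines form a cycle, without crossings, are minors of every large cylinder.
-/

set_option autoImplicit false

namespace Pool.Agent.Helper22.NW

open Pool.Agent.Helper61.NW Pool.Agent.Helper52.Wq2

theorem lnc (cyl : CylStmt) : LncStmt := by
  intro n m G t hn e he hc
  let E : ZMod n → ℤ → ℤ → Prop := fun j a b => ∃ u v : Fin n, e u = j ∧ e v = j + 1 ∧
    G.Adj (a, u) (b, v)
  have hE1 : ∀ j a b, E j a b → |a - b| ≤ ((1 : ℕ) : ℤ) := by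
    rintro j a b ⟨u, v, -, -, hg⟩
    have h1 := t.near a b u v hg
    push_cast
    exact h1
  have hE2 : ∀ j a b a' b', E j a b → E j a' b' → a < a' → b ≤ b' := by
    rintro j a b a' b' ⟨u, v, e1, e2, hg⟩ ⟨u', v', f1, f2, hg'⟩ haa
    by_contra hbb
    have hu : u' = u := e.injective (f1.trans e1.symm)
    have hv : v' = v := e.injective (f2.trans e2.symm)
    subst hu hv
    have h1 := abs_le.1 (t.near _ _ _ _ hg)
    have h2 := abs_le.1 (t.near _ _ _ _ hg')
    have k1 : b = a + 1 := by omega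
    have k2 : a' = a + 1 := by omega
    have k3 : b' = a := by omega
    subst k1 k2 k3
    exact hc j ⟨_, _, _, e1, e2, hg, hg'⟩
  obtain ⟨M₀, hM⟩ := cyl n hn 1 E hE1 hE2
  refine ⟨M₀, fun M hMM => Mn.trans ?_ (hM M hMM)⟩
  have hinj : Function.Injective (fun x : ℤ × Fin n => ((x.1, e x.2) : ℤ × ZMod n)) := by
    intro x y hxy
    have h0 : ((x.1, e x.2) : ℤ × ZMod n) = (y.1, e y.2) := hxy
    rw [Prod.mk.injEq] at h0
    exact Prod.ext h0.1 (e.injective h0.2)
  refine Mn.of_inj _ hinj ?_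
  rintro ⟨a, u⟩ ⟨b, v⟩ hab
  have hne : ((a, u) : ℤ × Fin n) ≠ (b, v) := hab.ne
  have h0 := abs_le.1 (t.near a b u v hab)
  rw [SimpleGraph.fromRel_adj]
  refine ⟨fun h1 => hne (hinj h1), ?_⟩
  by_cases hq : u = v
  · subst hq
    have h1 : a ≠ b := fun h => hne (by rw [h])
    have h2 : b = a + 1 ∨ a = b + 1 := by omega
    rcases h2 with h2 | h2
    · exact Or.inl (Or.inl ⟨rfl, h2⟩)
    · exact Or.inr (Or.inl ⟨rfl, h2⟩)
  · have hadj : (Lg G).Adj u v := by
      unfold Lg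
      rw [SimpleGraph.fromRel_adj]
      exact ⟨hq, Or.inl ⟨a, b, hab⟩⟩
    rcases (he _ _).1 hadj with h1 | h1
    · exact Or.inl (Or.inr ⟨h1, u, v, rfl, h1, hab⟩)
    · exact Or.inr (Or.inr ⟨h1, v, u, rfl, h1, hab.symm⟩)

end Pool.Agent.Helper22.NW
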