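import Pool.Agent.Helper61.NW.Goals

/-!
# Packet NCR of project NW

Finite-by-cyclic groups whose lines form a cycle, without crossings: the Cayley graph is a minor of
every large cylinder.
-/

set_option autoImplicit false

namespace Pool.Agent.Helper22.NW

open Pool.Agent.Helper61.NW Pool.Agent.Helper52.Wq2

universe u

variable {Γ : Type u} [Group Γ] {S : Set Γ} {h : Γ → ℤ} {s : Γ} {H n m : ℕ}

theorem h_one (t : Two S h s H n m) : h 1 = 0 := by
  have := t.hom 1 1
  rw [mul_one] at this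
  omega

theorem h_inv (t : Two S h s H n m) (a : Γ) : h a⁻¹ = - h a := by
  have h1 := t.hom a a⁻¹
  rw [mul_inv_cancel, h_one t] at h1
  omega

/-- `h` as a homomorphism. -/
def hh (t : Two S h s H n m) : Γ →* Multiplicative ℤ where
  toFun a := Multiplicative.ofAdd (h a)
  map_one' := by rw [h_one t]; rfl
  map_mul' a b := by rw [t.hom]; rfl

theorem h_pow (t : Two S h s H n m) (i : ℤ) : h (s ^ i) = i * H := by
  have h1 := map_zpow (hh t) s i
  have h2 : h (s ^ i) = Multiplicative.toAdd (hh t (s ^ i)) := rfl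
  rw [h2, h1, toAdd_zpow, smul_eq_mul]
  change i * h s = _
  rw [t.Hs]

theorem h_edge (t : Two S h s H n m) {a b : Γ} (hab : a⁻¹ * b ∈ S) : |h b - h a| ≤ H := by
  have h1 := t.max _ hab
  rw [t.hom, h_inv t] at h1
  have h2 : h b - h a = - h a + h b := by ring
  rw [h2]
  exact h1

theorem same_line (e : (Γ ⧸ Subgroup.zpowers s) ≃ ZMod n) {a b : Γ}
    (hab : e (a : Γ ⧸ Subgroup.zpowers s) = e (b : Γ ⧸ Subgroup.zpowers s)) :
    ∃ i : ℤ, b = a * s ^ i := by
  have h1 := e.injective hab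
  rw [QuotientGroup.eq, Subgroup.mem_zpowers_iff] at h1
  obtain ⟨k, hk⟩ := h1
  exact ⟨k, by rw [hk, mul_inv_cancel_left]⟩

theorem pos_mul (t : Two S h s H n m) (a : Γ) (i : ℤ) :
    h (a * s ^ i) / (H : ℤ) = h a / (H : ℤ) + i := by
  have hH : (H : ℤ) ≠ 0 := by
    have := t.Hpos
    omega
  rw [t.hom, h_pow t, Int.add_mul_ediv_right _ _ hH]

theorem ncr (cyl : CylStmt) : NcrStmt.{u} := by
  intro Γ _ S h s H n m t hn e he hc
  have hHpos : (0 : ℤ) < (H : ℤ) := by
    have := t.Hpos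
    omega
  have sym : ∀ a b : Γ, a⁻¹ * b ∈ S → b⁻¹ * a ∈ S := by
    intro a b hab
    have h1 := t.gen.2.1 _ hab
    rwa [mul_inv_rev, inv_inv] at h1
  let E : ZMod n → ℤ → ℤ → Prop := fun j a b => ∃ g g' : Γ, g⁻¹ * g' ∈ S ∧
    e (g : Γ ⧸ Subgroup.zpowers s) = j ∧ e (g' : Γ ⧸ Subgroup.zpowers s) = j + 1 ∧
    h g / (H : ℤ) = a ∧ h g' / (H : ℤ) = b
  have hE1 : ∀ j a b, E j a b → |a - b| ≤ ((1 : ℕ) : ℤ) := by
    rintro j a b ⟨g, g', hg, -, -, rfl, rfl⟩
    have h1 := abs_le.1 (h_edge t hg)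
    have h2 : h g' / (H : ℤ) ≤ h g / (H : ℤ) + 1 := by
      have h3 : h g' / (H : ℤ) ≤ (h g + 1 * (H : ℤ)) / (H : ℤ) :=
        Int.ediv_le_ediv hHpos (by linarith [h1.2])
      rwa [Int.add_mul_ediv_right _ _ hHpos.ne'] at h3
    have h2' : h g / (H : ℤ) ≤ h g' / (H : ℤ) + 1 := by
      have h3 : h g / (H : ℤ) ≤ (h g' + 1 * (H : ℤ)) / (H : ℤ) :=
        Int.ediv_le_ediv hHpos (by linarith [h1.1])
      rwa [Int.add_mul_ediv_right _ _ hHpos.ne'] at h3
    rw [abs_le]
    push_cast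
    constructor <;> linarith
  have hE2 : ∀ j a b a' b', E j a b → E j a' b' → a < a' → b ≤ b' := by
    rintro j a b a' b' ⟨g, g', hg, e1, e2, p1, p2⟩ ⟨k, k', hk, f1, f2, q1, q2⟩ haa
    by_contra hbb
    push Not at hbb
    obtain ⟨i, hi⟩ := same_line e (e1.trans f1.symm)
    obtain ⟨l, hl⟩ := same_line e (e2.trans f2.symm)
    have hi' : a' = a + i := by
      rw [← q1, ← p1, hi, pos_mul t]
    have hl' : b' = b + l := by
      rw [← q2, ← p2, hl, pos_mul t]
    have i1 : 1 ≤ i := by omega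
    have l1 : l ≤ -1 := by omega
    have u1 := abs_le.1 (h_edge t hg)
    have u2 := abs_le.1 (h_edge t hk)
    have v1 : h k = h g + i * H := by rw [hi, t.hom, h_pow t]
    have v2 : h k' = h g' + l * H := by rw [hl, t.hom, h_pow t]
    have w1 : (i - l) * (H : ℤ) ≤ 2 * H := by
      have := u2.1
      have := u1.2
      rw [v1, v2] at *
      nlinarith
    have w2 : i - l ≤ 2 := le_of_mul_le_mul_right w1 hHpos
    have i2 : i = 1 := by omega
    have l2 : l = -1 := by omega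
    subst i2 l2
    refine hc j ⟨g, g', e1, e2, ?_, hg, ?_⟩
    · have := u2.1
      have := u1.2
      rw [v1, v2] at *
      linarith
    · rw [hi, hl] at hk
      simpa using hk
  obtain ⟨M₀, hM⟩ := cyl n hn 1 E hE1 hE2
  refine ⟨M₀, fun M hMM => Mn.trans ?_ (hM M hMM)⟩
  have hinj : Function.Injective (fun g : Γ =>
      ((h g / (H : ℤ), e (g : Γ ⧸ Subgroup.zpowers s)) : ℤ × ZMod n)) := by
    intro a b hab
    have h1 := congrArg Prod.fst hab
    have h2 := congrArg Prod.snd hab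
    obtain ⟨i, hi⟩ := same_line e h2
    have h3 : h a / (H : ℤ) = h b / (H : ℤ) := h1
    rw [hi, pos_mul t] at h3
    have h4 : i = 0 := by omega
    rw [hi, h4, zpow_zero, mul_one]
  refine Mn.of_inj _ hinj ?_
  intro a b hab
  have hne : a ≠ b := hab.ne
  rw [cay_adj t.gen] at hab
  rw [SimpleGraph.fromRel_adj]
  refine ⟨fun h1 => hne (hinj h1), ?_⟩
  by_cases hq : e (a : Γ ⧸ Subgroup.zpowers s) = e (b : Γ ⧸ Subgroup.zpowers s)
  · obtain ⟨i, hi⟩ := same_line e hq
    have u1 := abs_le.1 (h_edge t hab)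
    have v1 : h b = h a + i * H := by rw [hi, t.hom, h_pow t]
    have i0 : i ≠ 0 := by
      rintro rfl
      rw [zpow_zero, mul_one] at hi
      exact hne hi.symm
    have i1 : i * (H : ℤ) ≤ 1 * H := by linarith [u1.2]
    have i2 : (-1) * (H : ℤ) ≤ i * H := by linarith [u1.1]
    have i3 := le_of_mul_le_mul_right i1 hHpos
    have i4 := le_of_mul_le_mul_right i2 hHpos
    have i5 : i = 1 ∨ i = -1 := by omega
    have p1 : h b / (H : ℤ) = h a / (H : ℤ) + i := by
      rw [hi, pos_mul t]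
    rcases i5 with rfl | rfl
    · exact Or.inl (Or.inl ⟨hq.symm, p1⟩)
    · refine Or.inr (Or.inl ⟨hq, ?_⟩)
      change h a / (H : ℤ) = h b / (H : ℤ) + 1
      omega
  · have hadj : (Ln S s).Adj (a : Γ ⧸ Subgroup.zpowers s) (b : Γ ⧸ Subgroup.zpowers s) := by
      unfold Ln
      rw [SimpleGraph.fromRel_adj]
      refine ⟨fun h1 => hq (congrArg e h1), Or.inl ⟨a, a⁻¹ * b, hab, rfl, ?_⟩⟩
      rw [mul_inv_cancel_left]
    rcases (he _ _).1 hadj with h1 | h1
    · exact Or.inl (Or.inr ⟨h1, a, b, hab, rfl, h1, rfl, rfl⟩)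
    · exact Or.inr (Or.inr ⟨h1, b, a, sym a b hab, rfl, h1, rfl, rfl⟩)

end Pool.Agent.Helper22.NW
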